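import Pool.Agent.H867R4.NModel
import Pool.Agent.H867R4.NBeh
import Pool.Agent.H541R2.Sim

set_option autoImplicit false

namespace Pool.Agent.H867R4

open Pool.Agent.H541R2 (rd mv mv_inside mv_le le_mv rd_outside)

variable {α : Type} {k : ℕ} {Q : Type}

/-- The local table of head `h` when the other heads do not move. -/
def tbl (M : NMach α k Q) (w : List α) (h : Fin k) (c : NCfg k Q) : Table Q α :=
  fun q x => {z | ∃ y ∈ M.δ q (Function.update (fun i => rd w (c.p i)) h x), y.1 = z.1 ∧ y.2 h = z.2 ∧
    ∀ i, i ≠ h → mv w.length (y.2 i) (c.p i) = c.p i}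

/-- The configuration `c` with the state and the position of head `h` replaced. -/
def NCfg.set (c : NCfg k Q) (h : Fin k) (q : Q) (p : ℕ) : NCfg k Q :=
  ⟨q, Function.update c.p h p⟩

theorem NCfg.set_self (c : NCfg k Q) (h : Fin k) : c.set h c.q (c.p h) = c := by
  simp [NCfg.set]

theorem NCfg.set_set (c : NCfg k Q) (h : Fin k) (q q' : Q) (p p' : ℕ) :
    (c.set h q p).set h q' p' = c.set h q' p' := by
  simp [NCfg.set]

/-- The head position `p` is not on a letter of `Z` in `U ++ Z ++ U'`. -/
def Out (U Z : List α) (p : ℕ) : Prop := p ≤ U.length ∨ U.length + Z.length + 1 ≤ p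

theorem rd_out {U Z Z' U' : List α} (hU : U ≠ []) (hZ : Z.length = Z'.length) {p : ℕ} (hp : Out U Z p) :
    rd (U ++ Z ++ U') p = rd (U ++ Z' ++ U') p :=
  rd_outside hU hZ hp

theorem len_eq {U Z Z' U' : List α} (hZ : Z.length = Z'.length) :
    (U ++ Z ++ U').length = (U ++ Z' ++ U').length := by
  simp [hZ]

theorem step_out {M : NMach α k Q} {U Z Z' U' : List α} (hU : U ≠ []) (hZ : Z.length = Z'.length)
    {c c' : NCfg k Q} (hc : ∀ i, Out U Z (c.p i)) (h : M.Step (U ++ Z ++ U') c c') :
    M.Step (U ++ Z' ++ U') c c' := by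
  obtain ⟨x, hx, h1, h2⟩ := h
  have e : (fun i => rd (U ++ Z ++ U') (c.p i)) = fun i => rd (U ++ Z' ++ U') (c.p i) := by
    funext i; exact rd_out hU hZ (hc i)
  rw [e] at hx
  refine ⟨x, hx, h1, fun i => ?_⟩
  rw [h2 i, len_eq hZ]

theorem tbl_out {M : NMach α k Q} {U Z Z' U' : List α} (hU : U ≠ []) (hZ : Z.length = Z'.length)
    {h : Fin k} {c : NCfg k Q} (hc : ∀ i, i ≠ h → Out U Z (c.p i)) :
    tbl M (U ++ Z ++ U') h c = tbl M (U ++ Z' ++ U') h c := by
  funext q x
  have e : (Function.update (fun i => rd (U ++ Z ++ U') (c.p i)) h x) =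
      (Function.update (fun i => rd (U ++ Z' ++ U') (c.p i)) h x) := by
    funext i
    by_cases hi : i = h
    · subst hi; simp
    · rw [Function.update_of_ne hi, Function.update_of_ne hi]
      exact rd_out hU hZ (hc i hi)
  unfold tbl
  rw [e, len_eq (U' := U') hZ]

/-- Computations during which the zone `Z` is only traversed by single heads. -/
inductive Free (M : NMach α k Q) (U Z U' : List α) : NCfg k Q → NCfg k Q → Prop
  | refl (c : NCfg k Q) : Free M U Z U' c c
  | step (c c' d : NCfg k Q) : (∀ i, Out U Z (c.p i)) → M.Step (U ++ Z ++ U') c c' →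
      Free M U Z U' c' d → Free M U Z U' c d
  | trav (h : Fin k) (e s : Bool) (r : Q) (c d : NCfg k Q) : (∀ i, i ≠ h → Out U Z (c.p i)) →
      c.p h = U.length + (if e then Z.length else 1) →
      Beh Z (tbl M (U ++ Z ++ U') h c) e c.q s r →
      Free M U Z U' (c.set h r (U.length + (if s then Z.length + 1 else 0))) d → Free M U Z U' c d

theorem Free.congr {M : NMach α k Q} {U Z Z' U' : List α} (hU : U ≠ []) (hZ : Z.length = Z'.length)
    (hB : (Beh Z : Table Q α → _) = Beh Z') {c d : NCfg k Q} (h : Free M U Z U' c d) :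
    Free M U Z' U' c d := by
  induction h with
  | refl c => exact Free.refl c
  | step c c' d h1 h2 _ ih =>
    refine Free.step c c' d ?_ (step_out hU hZ h1 h2) ih
    intro i
    have := h1 i
    unfold Out at this ⊢
    rwa [← hZ]
  | trav h e s r c d h1 h2 h3 _ ih =>
    refine Free.trav h e s r c d ?_ ?_ ?_ ?_
    · intro i hi
      have := h1 i hi
      unfold Out at this ⊢
      rwa [← hZ]
    · rw [h2, hZ]
    · rw [← tbl_out hU hZ h1, ← hB]; exact h3
    · rw [← hZ]; exact ih

theorem tbl_set (M : NMach α k Q) (w : List α) (h : Fin k) (c : NCfg k Q) (q : Q) (p : ℕ) :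
    tbl M w h (c.set h q p) = tbl M w h c := by
  funext q' x
  have e : (Function.update (fun i => rd w ((c.set h q p).p i)) h x) =
      (Function.update (fun i => rd w (c.p i)) h x) := by
    funext i
    by_cases hi : i = h
    · subst hi; simp
    · simp [Function.update_of_ne hi, NCfg.set]
  unfold tbl
  rw [e]
  ext z
  constructor
  · rintro ⟨y, h1, h2, h3, h4⟩
    refine ⟨y, h1, h2, h3, fun i hi => ?_⟩
    have := h4 i hi
    simpa [NCfg.set, Function.update_of_ne hi] using this
  · rintro ⟨y, h1, h2, h3, h4⟩
    refine ⟨y, h1, h2, h3, fun i hi => ?_⟩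
    have := h4 i hi
    simpa [NCfg.set, Function.update_of_ne hi] using this

theorem rd_seg {U y U' : List α} {i : ℕ} {c : α} (h1 : 1 ≤ i) (h2 : y[i - 1]? = some c) :
    rd (U ++ y ++ U') (U.length + i) = (false, some c) :=
  Pool.Agent.H541R2.rd_seg h1 h2

theorem seg_le {U y U' : List α} {i : ℕ} {c : α} (h1 : 1 ≤ i) (h2 : y[i - 1]? = some c) :
    U.length + i ≤ (U ++ y ++ U').length :=
  Pool.Agent.H541R2.seg_le h1 h2

/-- A table step is a machine step. -/
theorem step_of_tbl {M : NMach α k Q} {U Z U' : List α} {h : Fin k} {c : NCfg k Q} {q : Q} {i : ℕ}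
    {a : α} {q' : Q} {m : Fin 3} (h1 : 1 ≤ i) (h2 : Z[i - 1]? = some a)
    (h3 : (q', m) ∈ tbl M (U ++ Z ++ U') h c q (false, some a)) :
    M.Step (U ++ Z ++ U') (c.set h q (U.length + i)) (c.set h q' (U.length + (i + m.val - 1))) := by
  obtain ⟨y, hy, h4, h5, h6⟩ := h3
  refine ⟨y, ?_, by simpa [NCfg.set] using h4.symm, ?_⟩
  · have e : (fun j => rd (U ++ Z ++ U') ((c.set h q (U.length + i)).p j)) =
        Function.update (fun j => rd (U ++ Z ++ U') (c.p j)) h (false, some a) := by
      funext j
      by_cases hj : j = h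
      · subst hj
        simp only [NCfg.set, Function.update_self]
        exact rd_seg h1 h2
      · simp [NCfg.set, Function.update_of_ne hj]
    rw [e]
    exact hy
  · intro j
    by_cases hj : j = h
    · subst hj
      simp only [NCfg.set, Function.update_self]
      have h5' : y.2 j = m := h5
      rw [h5', mv_inside m (seg_le h1 h2)]
      omega
    · simp only [NCfg.set, Function.update_of_ne hj]
      exact (h6 j hj).symm

/-- Escapes are realised by computations. -/
theorem Esc.run {M : NMach α k Q} {U Z U' : List α} {h : Fin k} {c : NCfg k Q} {q : Q} {i : ℕ}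
    {s : Bool} {r : Q} (hE : Esc (tbl M (U ++ Z ++ U') h c) Z q i s r) :
    Relation.ReflTransGen (M.Step (U ++ Z ++ U')) (c.set h q (U.length + i))
      (c.set h r (U.length + (if s then Z.length + 1 else 0))) := by
  induction hE with
  | outL q => simpa using Relation.ReflTransGen.refl
  | outR q => simpa using Relation.ReflTransGen.refl
  | step q i a q' m s r h1 h2 h3 _ ih =>
    exact Relation.ReflTransGen.head (step_of_tbl h1 h2 h3) ih

theorem Free.sound {M : NMach α k Q} {U Z U' : List α} {c d : NCfg k Q} (h : Free M U Z U' c d) :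
    Relation.ReflTransGen (M.Step (U ++ Z ++ U')) c d := by
  induction h with
  | refl c => exact Relation.ReflTransGen.refl
  | step c c' d _ h2 _ ih => exact Relation.ReflTransGen.head h2 ih
  | trav h e s r c d h1 h2 h3 _ ih =>
    have hE : Esc (tbl M (U ++ Z ++ U') h c) Z c.q (if e then Z.length else 1) s r := h3
    have h4 := hE.run
    rw [← h2, NCfg.set_self] at h4
    exact h4.trans ih

/-- Pieces that stay outside the zone. -/
theorem free_of_out {M : NMach α k Q} {U Z U' : List α} {ρ : ℕ → NCfg k Q} :
    ∀ (m t : ℕ), (∀ s, t ≤ s → s < t + m → M.Step (U ++ Z ++ U') (ρ s) (ρ (s + 1))) →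
      (∀ s, t ≤ s → s ≤ t + m → ∀ i, Out U Z ((ρ s).p i)) → Free M U Z U' (ρ t) (ρ (t + m)) := by
  intro m
  induction m with
  | zero => intro t _ _; exact Free.refl _
  | succ m ih =>
    intro t h1 h2
    refine Free.step _ (ρ (t + 1)) _ (h2 t le_rfl (by omega)) (h1 t le_rfl (by omega)) ?_
    have := ih (t + 1) (fun s hs hs' => h1 s (by omega) (by omega))
      (fun s hs hs' => h2 s (by omega) (by omega))
    rwa [show t + 1 + m = t + (m + 1) by ring] at this

/-- A step of head `h` alone on the letter `a` is in the table. -/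
theorem tbl_of_step {M : NMach α k Q} {U Z U' : List α} {h : Fin k} {c c' : NCfg k Q}
    {i : ℕ} {a : α} (h1 : 1 ≤ i) (h2 : Z[i - 1]? = some a) (hp : c.p h = U.length + i)
    (hst : M.Step (U ++ Z ++ U') c c') (hso : ∀ j, j ≠ h → c'.p j = c.p j) :
    ∃ m : Fin 3, (c'.q, m) ∈ tbl M (U ++ Z ++ U') h c c.q (false, some a) ∧
      c' = c.set h c'.q (U.length + (i + m.val - 1)) := by
  obtain ⟨x, hx, h3, h4⟩ := hst
  refine ⟨x.2 h, ⟨x, ?_, h3.symm, rfl, fun j hj => ?_⟩, ?_⟩
  · have e : Function.update (fun j => rd (U ++ Z ++ U') (c.p j)) h (false, some a) =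
        fun j => rd (U ++ Z ++ U') (c.p j) := by
      funext j
      by_cases hj : j = h
      · subst hj
        simp only [Function.update_self]
        rw [hp]
        exact (rd_seg h1 h2).symm
      · simp [Function.update_of_ne hj]
    rw [e]
    exact hx
  · rw [← h4 j, hso j hj]
  · apply NCfg.ext
    · rfl
    · funext j
      by_cases hj : j = h
      · subst hj
        rw [h4 j, hp, mv_inside _ (seg_le h1 h2)]
        simp only [NCfg.set, Function.update_self]
        omega
      · simp only [NCfg.set, Function.update_of_ne hj]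
        exact hso j hj

/-- Solo pieces whose ends are outside the zone. -/
theorem free_of_solo {M : NMach α k Q} {U Z U' : List α} (hZ : 1 ≤ Z.length) {ρ : ℕ → NCfg k Q}
    {h : Fin k} : ∀ (m t : ℕ),
      (∀ s, t ≤ s → s < t + m → M.Step (U ++ Z ++ U') (ρ s) (ρ (s + 1))) →
      (∀ s, t ≤ s → s < t + m → ∀ i, i ≠ h → (ρ (s + 1)).p i = (ρ s).p i) →
      (∀ i, i ≠ h → Out U Z ((ρ t).p i)) → Out U Z ((ρ (t + m)).p h) →
      (Out U Z ((ρ t).p h) → Free M U Z U' (ρ t) (ρ (t + m))) ∧
      (∀ i, 1 ≤ i → i ≤ Z.length → (ρ t).p h = U.length + i →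
        ∃ s r, Esc (tbl M (U ++ Z ++ U') h (ρ t)) Z (ρ t).q i s r ∧
          Free M U Z U' ((ρ t).set h r (U.length + (if s then Z.length + 1 else 0))) (ρ (t + m))) := by
  intro m
  induction m with
  | zero =>
    intro t _ _ _ h4
    refine ⟨fun _ => Free.refl _, fun i hi1 hi2 hp => ?_⟩
    exfalso
    rw [Nat.add_zero, hp] at h4
    unfold Out at h4
    omega
  | succ m ih =>
    intro t h1 h2 h3 h4
    have hstep := h1 t le_rfl (by omega)
    have hsolo := h2 t le_rfl (by omega)
    have h3' : ∀ i, i ≠ h → Out U Z ((ρ (t + 1)).p i) := by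
      intro i hi
      rw [hsolo i hi]
      exact h3 i hi
    have e : t + 1 + m = t + (m + 1) := by ring
    obtain ⟨ih1, ih2⟩ := ih (t + 1) (fun s hs hs' => h1 s (by omega) (by omega))
      (fun s hs hs' => h2 s (by omega) (by omega)) h3' (by rw [e]; exact h4)
    rw [e] at ih1 ih2
    refine ⟨fun hout => ?_, fun i hi1 hi2 hp => ?_⟩
    · -- the head is outside
      refine Free.step _ (ρ (t + 1)) _ ?_ hstep ?_
      · intro i
        by_cases hi : i = h
        · subst hi; exact hout
        · exact h3 i hi
      · by_cases hout' : Out U Z ((ρ (t + 1)).p h)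
        · exact ih1 hout'
        · -- the head enters the zone
          obtain ⟨x, _, _, h6⟩ := hstep
          have h6' := h6 h
          have hmv1 := mv_le (U ++ Z ++ U').length (x.2 h) ((ρ t).p h)
          rw [← h6'] at hmv1
          have hge : (ρ t).p h ≤ (ρ (t + 1)).p h + 1 ∨ (U ++ Z ++ U').length + 1 < (ρ t).p h := by
            by_cases hb : (ρ t).p h ≤ (U ++ Z ++ U').length + 1
            · left
              rw [h6']
              by_cases h0 : (ρ t).p h = 0
              · omega
              · have := le_mv (n := (U ++ Z ++ U').length) (x.2 h) (p := (ρ t).p h)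
                  (a := (ρ t).p h - 1) (by omega) (by omega)
                omega
            · right; omega
          have hkey : ∃ e' : Bool, (ρ (t + 1)).p h = U.length + (if e' then Z.length else 1) := by
            unfold Out at hout hout'
            rw [not_or] at hout'
            obtain ⟨ho1, ho2⟩ := hout'
            rcases hout with ho | ho
            · exact ⟨false, by simp only [Bool.false_eq_true, if_false]; omega⟩
            · rcases hge with hge | hge
              · exact ⟨true, by simp only [if_true]; omega⟩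
              · -- positions beyond the end: the move is clipped
                exfalso
                have hl : (U ++ Z ++ U').length = U.length + Z.length + U'.length := by
                  simp only [List.length_append]
                have : (U ++ Z ++ U').length + 1 ≤ mv (U ++ Z ++ U').length (x.2 h) ((ρ t).p h) :=
                  le_mv _ le_rfl (by omega)
                omega
          obtain ⟨e', he'⟩ := hkey
          have hi1 : 1 ≤ (if e' then Z.length else 1) := by cases e' <;> simp [hZ]
          have hi2 : (if e' then Z.length else 1) ≤ Z.length := by cases e' <;> simp [hZ]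
          obtain ⟨s, r, hE, hF⟩ := ih2 _ hi1 hi2 he'
          exact Free.trav h e' s r _ _ h3' he' hE hF
    · -- the head is inside
      obtain ⟨a, ha⟩ : ∃ a, Z[i - 1]? = some a := by
        rw [List.getElem?_eq_getElem (by omega)]; exact ⟨_, rfl⟩
      obtain ⟨m', hm1, hm2⟩ := tbl_of_step hi1 ha hp hstep hsolo
      have hp' : (ρ (t + 1)).p h = U.length + (i + m'.val - 1) := by
        rw [hm2]; simp [NCfg.set]
      have hset : ∀ q p, (ρ (t + 1)).set h q p = (ρ t).set h q p := by
        intro q p
        rw [hm2, NCfg.set_set]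
      have htbl : tbl M (U ++ Z ++ U') h (ρ (t + 1)) = tbl M (U ++ Z ++ U') h (ρ t) := by
        rw [hm2, tbl_set]
      have hm3 := m'.isLt
      by_cases h0 : i + m'.val - 1 = 0
      · refine ⟨false, (ρ (t + 1)).q, Esc.step _ i a _ m' _ _ hi1 ha hm1 ?_, ?_⟩
        · rw [h0]; exact Esc.outL _
        · have e2 : (ρ t).set h (ρ (t + 1)).q (U.length + (if false = true then Z.length + 1 else 0)) =
              ρ (t + 1) := by
            conv_rhs => rw [hm2, h0]
            simp
          rw [e2]
          apply ih1
          unfold Out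
          rw [hp']
          omega
      · by_cases hl : i + m'.val - 1 ≤ Z.length
        · obtain ⟨s, r, hE, hF⟩ := ih2 (i + m'.val - 1) (by omega) hl hp'
          refine ⟨s, r, Esc.step _ i a _ m' _ _ hi1 ha hm1 ?_, ?_⟩
          · rw [← htbl]; exact hE
          · rw [← hset]; exact hF
        · have hl' : i + m'.val - 1 = Z.length + 1 := by omega
          refine ⟨true, (ρ (t + 1)).q, Esc.step _ i a _ m' _ _ hi1 ha hm1 ?_, ?_⟩
          · rw [hl']; exact Esc.outR _
          · have e2 : (ρ t).set h (ρ (t + 1)).q (U.length + (if true = true then Z.length + 1 else 0)) =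
                ρ (t + 1) := by
              conv_rhs => rw [hm2, hl']
              simp
            rw [e2]
            apply ih1
            unfold Out
            rw [hp', hl']
            omega

end Pool.Agent.H867R4
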