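import Pool.Agent.H867R4.NWords
import Pool.Agent.H867R4.NSim
import Pool.Agent.H541R2.Count

set_option autoImplicit false

namespace Pool.Agent.H867R4

open Finset
open Pool.Agent.H541R2 (rd mv mv_le le_mv gsign mu mu_nonneg IsCyl isCyl_univ cyl_card)

variable {k : ℕ} {Q : Type}

/-- A phase with free row `r`. -/
def Phase (C : Code Q) (M : NMach (Fin 4) k Q) {g N : ℕ} (b : Fin g → Fin N → Bool) (r : Fin g)
    (c d : NCfg k Q) : Prop :=
  Free M (C.U b r) (C.zone (List.ofFn (b r))) (C.U' b r) c d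

theorem phase_indep (C : Code Q) (M : NMach (Fin 4) k Q) {g N : ℕ} (r : Fin g) (c d : NCfg k Q)
    (b b' : Fin g → Fin N → Bool) (hbb : ∀ j, j ≠ r → b j = b' j) (h : Phase C M b r c d) :
    Phase C M b' r c d := by
  unfold Phase at *
  obtain ⟨h1, h2⟩ := C.U_congr b b' r hbb
  rw [← h1, ← h2]
  exact h.congr (C.U_ne b r) (by rw [C.zone_length, C.zone_length]; simp)
    (C.beh_zone _ _ (by simp))

/-- Acceptance within `R` phases. -/
def AccIn (C : Code Q) (M : NMach (Fin 4) k Q) {g N : ℕ} (K : Finset (NCfg k Q)) :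
    ℕ → NCfg k Q → (Fin g → Fin N → Bool) → Prop
  | 0, c, _ => c.q ∈ M.F
  | (R + 1), c, b => ∃ r : Fin g, ∃ d ∈ K, Phase C M b r c d ∧ AccIn C M K R d b

open Classical in
theorem accIn_card (C : Code Q) {g N : ℕ} (M : NMach (Fin 4) k Q)
    (K : Finset (NCfg k Q)) (σ : ℝ) (hσ : |σ| = 1) : ∀ (R : ℕ) (c : NCfg k Q)
    (S : Set (Fin (g + 1) → Fin N → Bool)), IsCyl S →
    (∀ b ∈ S, AccIn C M K R c b → gsign Finset.univ b = σ) →
    ((Finset.univ.filter (fun b => b ∈ S ∧ AccIn C M K R c b)).card : ℝ) ≤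
      ((g + 1 : ℝ) * K.card) ^ R * ((2 ^ N : ℝ) ^ (g + 1) * (mu g) ^ N) := by
  intro R
  induction R with
  | zero =>
    intro c S hS hb
    rw [pow_zero, one_mul]
    by_cases hc : c.q ∈ M.F
    · have e : (Finset.univ.filter (fun b => b ∈ S ∧ AccIn C M K 0 c b)) =
          Finset.univ.filter (fun b => b ∈ S) := by
        ext b; simp [AccIn, hc]
      rw [e]
      exact cyl_card hS σ hσ (fun b hbS => hb b hbS hc)
    · have e : (Finset.univ.filter (fun b => b ∈ S ∧ AccIn C M K 0 c b)) = ∅ := by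
        ext b; simp [AccIn, hc]
      rw [e]
      have := mu_nonneg g
      simp only [Finset.card_empty, Nat.cast_zero]
      positivity
  | succ R ih =>
    intro c S hS hb
    obtain ⟨S', hS'⟩ : ∃ S' : Fin (g + 1) × NCfg k Q → Set (Fin (g + 1) → Fin N → Bool),
        ∀ x, S' x = S ∩ {b | Phase C M b x.1 c x.2} := ⟨_, fun _ => rfl⟩
    obtain ⟨G, hG⟩ : ∃ G : Fin (g + 1) × NCfg k Q → Finset (Fin (g + 1) → Fin N → Bool),
        ∀ x, G x = Finset.univ.filter (fun b => b ∈ S' x ∧ AccIn C M K R x.2 b) := ⟨_, fun _ => rfl⟩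
    have hsub : (Finset.univ.filter (fun b => b ∈ S ∧ AccIn C M K (R + 1) c b)) ⊆
        ((Finset.univ : Finset (Fin (g + 1))) ×ˢ K).biUnion G := by
      intro b hb'
      rw [Finset.mem_filter] at hb'
      obtain ⟨_, hbS, r, d, hd, hT, hacc⟩ := hb'
      rw [Finset.mem_biUnion]
      refine ⟨(r, d), by simp [hd], ?_⟩
      rw [hG, Finset.mem_filter]
      refine ⟨Finset.mem_univ _, ?_, hacc⟩
      rw [hS']
      exact ⟨hbS, hT⟩
    have h1 := (Finset.card_le_card hsub).trans Finset.card_biUnion_le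
    have h2 : ∀ x ∈ ((Finset.univ : Finset (Fin (g + 1))) ×ˢ K), ((G x).card : ℝ) ≤
          ((g + 1 : ℝ) * K.card) ^ R * ((2 ^ N : ℝ) ^ (g + 1) * (mu g) ^ N) := by
      intro x hx
      have hd : x.2 ∈ K := by
        rw [Finset.mem_product] at hx; exact hx.2
      rw [hG]
      refine ih x.2 (S' x) ?_ ?_
      · rw [hS']
        apply hS.inter x.1
        intro b b' hbb hT
        exact phase_indep C M x.1 c x.2 b b' hbb hT
      · intro b hbS hacc
        rw [hS'] at hbS
        exact hb b hbS.1 ⟨x.1, x.2, hd, hbS.2, hacc⟩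
    have h3 : ((Finset.univ.filter (fun b => b ∈ S ∧ AccIn C M K (R + 1) c b)).card : ℝ) ≤
        ∑ x ∈ ((Finset.univ : Finset (Fin (g + 1))) ×ˢ K), ((G x).card : ℝ) := by
      rw [← Nat.cast_sum]
      exact Nat.cast_le.mpr h1
    refine h3.trans ((Finset.sum_le_sum h2).trans (le_of_eq ?_))
    rw [Finset.sum_const, nsmul_eq_mul, Finset.card_product, Finset.card_univ, Fintype.card_fin]
    push_cast
    ring

/-- The positions in block `r + 1` are the separator before row `r` and row `r`. -/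
theorem out_of_block (C : Code Q) {g N : ℕ} (b : Fin g → Fin N → Bool) (r : Fin g) {p : ℕ}
    (h : p / (N * (C.x₁.length + 1) + 1) ≠ r.val + 1) :
    Out (C.U b r) (C.zone (List.ofFn (b r))) p := by
  unfold Out
  rw [C.U_length b r (by have := r.isLt; omega), C.zone_length]
  have hpos : 0 < N * (C.x₁.length + 1) + 1 := by omega
  simp only [List.length_ofFn]
  rcases lt_or_gt_of_ne h with h2 | h2
  · left
    rw [Nat.div_lt_iff_lt_mul hpos] at h2
    exact h2.le
  · right
    have h3 : r.val + 1 + 1 ≤ p / (N * (C.x₁.length + 1) + 1) := h2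
    rw [Nat.le_div_iff_mul_le hpos] at h3
    calc _ = (r.val + 1 + 1) * (N * (C.x₁.length + 1) + 1) := by ring
      _ ≤ _ := h3

/-- Some row avoids `3 k` given blocks. -/
theorem exists_row (f : Fin k → Fin 3 → ℕ) : ∃ r : Fin (3 * k + 1), ∀ i e, f i e ≠ r.val + 1 := by
  classical
  by_contra hh
  push Not at hh
  choose a e hf using hh
  have hinj : Function.Injective (fun r : Fin (3 * k + 1) => (a r, e r)) := by
    intro r r' h
    have h1 := hf r
    have h2 := hf r'
    rw [Prod.mk.injEq] at h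
    rw [h.1, h.2] at h1
    rw [h1] at h2
    exact Fin.ext (by omega)
  have := Fintype.card_le_of_injective _ hinj
  simp only [Fintype.card_prod, Fintype.card_fin] at this
  omega

/-- Positions change slowly. -/
theorem pos_close {α : Type} {M : NMach α k Q} {w : List α} {ρ : ℕ → NCfg k Q} {t : ℕ} :
    ∀ m, (∀ s, t ≤ s → s < t + m → M.Step w (ρ s) (ρ (s + 1))) →
      (∀ i, (ρ t).p i ≤ w.length + 1) →
      ∀ i, (ρ (t + m)).p i ≤ (ρ t).p i + m ∧ (ρ t).p i ≤ (ρ (t + m)).p i + m ∧
        (ρ (t + m)).p i ≤ w.length + 1 := by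
  intro m
  induction m with
  | zero => intro _ h i; exact ⟨le_rfl, le_rfl, h i⟩
  | succ m ih =>
    intro h1 h2 i
    obtain ⟨a1, a2, a3⟩ := ih (fun s hs hs' => h1 s hs (by omega)) h2 i
    obtain ⟨x, _, _, h4⟩ := h1 (t + m) (by omega) (by omega)
    have h5 := h4 i
    rw [show t + m + 1 = t + (m + 1) by ring] at h5
    have b1 : (ρ (t + (m + 1))).p i ≤ (ρ (t + m)).p i + 1 := by rw [h5]; exact mv_le _ _ _
    have b2 : (ρ (t + m)).p i ≤ (ρ (t + (m + 1))).p i + 1 := by
      rw [h5]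
      by_cases h0 : (ρ (t + m)).p i = 0
      · omega
      · have := le_mv (n := w.length) (x.2 i) (p := (ρ (t + m)).p i) (a := (ρ (t + m)).p i - 1)
          (by omega) (by omega)
        omega
    have b3 : (ρ (t + (m + 1))).p i ≤ w.length + 1 := by
      rw [h5]
      unfold mv
      split_ifs <;> omega
    exact ⟨by omega, by omega, b3⟩

/-- Short pieces are phases. -/
theorem phase_short (C : Code Q) (M : NMach (Fin 4) k Q) {N : ℕ}
    (b : Fin (3 * k + 1) → Fin N → Bool) {ρ : ℕ → NCfg k Q} (t m : ℕ)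
    (hm : m ≤ N * (C.x₁.length + 1))
    (h1 : ∀ s, t ≤ s → s < t + m → M.Step (C.W b) (ρ s) (ρ (s + 1)))
    (h2 : ∀ i, (ρ t).p i ≤ (C.W b).length + 1) :
    ∃ r, Phase C M b r (ρ t) (ρ (t + m)) := by
  obtain ⟨D, hD⟩ : ∃ D, D = N * (C.x₁.length + 1) + 1 := ⟨_, rfl⟩
  have hDpos : 0 < D := by omega
  obtain ⟨r, hr⟩ := exists_row (fun (i : Fin k) (e : Fin 3) => (ρ t).p i / D + e.val - 1)
  refine ⟨r, ?_⟩
  unfold Phase
  have hW := C.W_split b r
  apply free_of_out m t
  · intro s hs hs'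
    rw [← hW]
    exact h1 s hs hs'
  · intro s hs hs' i
    apply out_of_block
    rw [← hD]
    intro hblk
    obtain ⟨m', rfl⟩ := Nat.exists_eq_add_of_le hs
    obtain ⟨a1, a2, _⟩ := pos_close m' (fun s hs hs'' => h1 s hs (by omega)) h2 i
    have e0 := hr i 0
    have e1 := hr i 1
    have e2 := hr i 2
    simp only [Fin.val_zero, Fin.val_one, Fin.val_two] at e0 e1 e2
    have hq1 : (ρ (t + m')).p i / D ≤ (ρ t).p i / D + 1 := by
      calc (ρ (t + m')).p i / D ≤ ((ρ t).p i + D) / D := Nat.div_le_div_right (by omega)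
        _ = (ρ t).p i / D + 1 := Nat.add_div_right _ hDpos
    have hq2 : (ρ t).p i / D ≤ (ρ (t + m')).p i / D + 1 := by
      calc (ρ t).p i / D ≤ ((ρ (t + m')).p i + D) / D := Nat.div_le_div_right (by omega)
        _ = (ρ (t + m')).p i / D + 1 := Nat.add_div_right _ hDpos
    omega

/-- Solo pieces are phases. -/
theorem phase_solo (C : Code Q) (M : NMach (Fin 4) k Q) {N : ℕ} (hN : 1 ≤ N)
    (b : Fin (3 * k + 1) → Fin N → Bool) {ρ : ℕ → NCfg k Q} (h : Fin k) (t m : ℕ)
    (h1 : ∀ s, t ≤ s → s < t + m → M.Step (C.W b) (ρ s) (ρ (s + 1)))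
    (h2 : ∀ s, t ≤ s → s < t + m → ∀ i, i ≠ h → (ρ (s + 1)).p i = (ρ s).p i) :
    ∃ r, Phase C M b r (ρ t) (ρ (t + m)) := by
  obtain ⟨D, hD⟩ : ∃ D, D = N * (C.x₁.length + 1) + 1 := ⟨_, rfl⟩
  obtain ⟨r, hr⟩ := exists_row (fun (i : Fin k) (e : Fin 3) =>
    if e = 0 then (ρ t).p i / D else (ρ (t + m)).p i / D)
  refine ⟨r, ?_⟩
  unfold Phase
  have hW := C.W_split b r
  have hZ : 1 ≤ (C.zone (List.ofFn (b r))).length := by
    rw [C.zone_length]
    simp only [List.length_ofFn]
    nlinarith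
  have e0 : ∀ i, (ρ t).p i / D ≠ r.val + 1 := by
    intro i
    have := hr i 0
    simpa using this
  have e1 : ∀ i, (ρ (t + m)).p i / D ≠ r.val + 1 := by
    intro i
    have := hr i 1
    simpa using this
  rw [hD] at e0 e1
  refine (free_of_solo hZ (h := h) m t ?_ h2 ?_ ?_).1 ?_
  · intro s hs hs'
    rw [← hW]
    exact h1 s hs hs'
  · intro i _
    exact out_of_block C b r (e0 i)
  · exact out_of_block C b r (e1 h)
  · exact out_of_block C b r (e0 h)

/-- One more phase does no harm. -/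
theorem AccIn.mono {C : Code Q} {M : NMach (Fin 4) k Q} {g N : ℕ} {K : Finset (NCfg k Q)} {R : ℕ}
    {c : NCfg k Q} {b : Fin (g + 1) → Fin N → Bool} (hc : c ∈ K) (h : AccIn C M K R c b) :
    AccIn C M K (R + 1) c b :=
  ⟨0, c, hc, Free.refl c, h⟩

/-- From a computation to phases. -/
theorem accIn_of_run (C : Code Q) (M : NMach (Fin 4) k Q) {N : ℕ} (hN : 1 ≤ N)
    (K : Finset (NCfg k Q)) (b : Fin (3 * k + 1) → Fin N → Bool)
    (hK : ∀ c : NCfg k Q, (∀ i, c.p i ≤ (C.W b).length + 1) → c ∈ K)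
    (G n : ℕ) (hG : n ≤ G * (N * (C.x₁.length + 1)))
    {T I : ℕ} {ρ : ℕ → NCfg k Q} (hρ : M.AccRun (C.W b) T ρ) (hP : Pieces n T I ρ) (hG1 : 1 ≤ G) :
    AccIn C M K (G * I) (ρ 0) b := by
  obtain ⟨h0, hst, hF⟩ := hρ
  obtain ⟨τ, ht0, htI, htj⟩ := hP
  have hmono : ∀ j, j ≤ I → τ j ≤ T := by
    have key : ∀ d j, j + d = I → τ j ≤ T := by
      intro d
      induction d with
      | zero => intro j hj; rw [← htI, ← hj]; simp
      | succ d ih => intro j hj; exact (htj j (by omega)).1.trans (ih (j + 1) (by omega))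
    intro j hj
    obtain ⟨d, hd⟩ := Nat.exists_eq_add_of_le hj
    exact key d j hd.symm
  have hpos : ∀ t, t ≤ T → ∀ i, (ρ t).p i ≤ (C.W b).length + 1 := by
    intro t ht i
    have := (pos_close (M := M) (w := C.W b) (ρ := ρ) (t := 0) t
      (fun s _ hs' => hst s (by omega)) (by rw [h0]; intro i; simp) i).2.2
    rwa [Nat.zero_add] at this
  obtain ⟨ℓ, hℓ⟩ : ∃ ℓ, ℓ = N * (C.x₁.length + 1) := ⟨_, rfl⟩
  have hℓ1 : 1 ≤ ℓ := by rw [hℓ]; nlinarith
  -- short segments
  have hseg : ∀ (G' R t m : ℕ), t + m ≤ T → m ≤ G' * ℓ →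
      AccIn C M K R (ρ (t + m)) b → AccIn C M K (G' + R) (ρ t) b := by
    intro G'
    induction G' with
    | zero =>
      intro R t m _ hm hacc
      have : m = 0 := by omega
      subst this
      rw [Nat.zero_add]; exact hacc
    | succ G' ih =>
      intro R t m htm hm hacc
      have e : G' + 1 + R = (G' + R) + 1 := by ring
      rw [e]
      by_cases hmℓ : m ≤ ℓ
      · obtain ⟨r, hr⟩ := phase_short C M b t m (by rw [← hℓ]; exact hmℓ)
          (fun s _ hs' => hst s (by omega)) (hpos t (by omega))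
        refine ⟨r, ρ (t + m), hK _ (hpos _ htm), hr, ?_⟩
        have := ih R (t + m) 0 (by omega) (by omega) (by simpa using hacc)
        exact this
      · obtain ⟨r, hr⟩ := phase_short C M b t ℓ (by rw [← hℓ])
          (fun s _ hs' => hst s (by omega)) (hpos t (by omega))
        refine ⟨r, ρ (t + ℓ), hK _ (hpos _ (by omega)), hr, ?_⟩
        have e2 : (G' + 1) * ℓ = G' * ℓ + ℓ := by ring
        refine ih R (t + ℓ) (m - ℓ) (by omega) (by omega) ?_
        rw [show t + ℓ + (m - ℓ) = t + m by omega]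
        exact hacc
  have key : ∀ d j, j + d = I → AccIn C M K (G * d) (ρ (τ j)) b := by
    intro d
    induction d with
    | zero =>
      intro j hj
      have : j = I := by omega
      rw [this, htI, Nat.mul_zero]
      exact hF
    | succ d ih =>
      intro j hj
      have hacc := ih (j + 1) (by omega)
      obtain ⟨hle, hor⟩ := htj j (by omega)
      have hjT := hmono (j + 1) (by omega)
      obtain ⟨m, hm⟩ := Nat.exists_eq_add_of_le hle
      have e : G * (d + 1) = G + G * d := by ring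
      rw [e]
      rcases hor with hor | ⟨h, hor⟩
      · refine hseg G (G * d) (τ j) m (by omega) ?_ (by rw [← hm]; exact hacc)
        rw [hℓ]
        omega
      · -- solo piece: one phase and `G - 1` empty ones
        obtain ⟨r, hr⟩ := phase_solo C M hN b h (τ j) m (fun s _ hs' => hst s (by omega))
          (fun s hs hs' => hor s hs (by omega))
        obtain ⟨G', rfl⟩ : ∃ G', G = G' + 1 := ⟨G - 1, by omega⟩
        have e3 : G' + 1 + (G' + 1) * d = (G' + (G' + 1) * d) + 1 := by ring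
        rw [e3]
        refine ⟨r, ρ (τ j + m), hK _ (hpos _ (by omega)), hr, ?_⟩
        rw [← hm]
        have : ∀ G'' R, AccIn C M K R (ρ (τ (j + 1))) b → AccIn C M K (G'' + R) (ρ (τ (j + 1))) b := by
          intro G''
          induction G'' with
          | zero => intro R h; rw [Nat.zero_add]; exact h
          | succ G'' ih2 =>
            intro R h
            have := AccIn.mono (hK _ (hpos _ hjT)) (ih2 R h)
            rwa [show G'' + R + 1 = G'' + 1 + R by ring] at this
        exact this G' _ hacc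
  have := key I 0 (by omega)
  rwa [ht0] at this

/-- From phases to a computation. -/
theorem run_of_accIn (C : Code Q) (M : NMach (Fin 4) k Q) {g N : ℕ}
    (K : Finset (NCfg k Q)) (b : Fin g → Fin N → Bool) :
    ∀ R c, AccIn C M K R c b → ∃ d, Relation.ReflTransGen (M.Step (C.W b)) c d ∧ d.q ∈ M.F := by
  intro R
  induction R with
  | zero => intro c h; exact ⟨c, Relation.ReflTransGen.refl, h⟩
  | succ R ih =>
    rintro c ⟨r, d, _, h1, h2⟩
    obtain ⟨e, h3, h4⟩ := ih d h2
    refine ⟨e, ?_, h4⟩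
    have h5 := Free.sound h1
    rw [← C.W_split b r] at h5
    exact h5.trans h3

/-- Reachability gives computations. -/
theorem accepts_of_reach {α : Type} (M : NMach α k Q) (w : List α) {d : NCfg k Q}
    (h : Relation.ReflTransGen (M.Step w) ⟨M.q₀, fun _ => 0⟩ d) (hd : d.q ∈ M.F) : M.Accepts w := by
  have key : ∃ (T : ℕ) (ρ : ℕ → NCfg k Q), ρ 0 = ⟨M.q₀, fun _ => 0⟩ ∧
      (∀ t < T, M.Step w (ρ t) (ρ (t + 1))) ∧ ρ T = d := by
    clear hd
    induction h with
    | refl => exact ⟨0, fun _ => _, rfl, by intro t ht; omega, rfl⟩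
    | @tail d e _ h2 ih =>
      obtain ⟨T, ρ, h3, h4, h5⟩ := ih
      refine ⟨T + 1, fun t => if t ≤ T then ρ t else e, by simp [h3], ?_, by simp⟩
      intro t ht
      by_cases htT : t = T
      · subst htT
        simp only [le_refl, if_true]
        rw [if_neg (by omega), h5]
        exact h2
      · have h6 : t ≤ T := by omega
        have h7 : t + 1 ≤ T := by omega
        simp only [h6, h7, if_true]
        exact h4 t (by omega)
  obtain ⟨T, ρ, h3, h4, h5⟩ := key
  exact ⟨T, ρ, h3, h4, by rw [h5]; exact hd⟩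

end Pool.Agent.H867R4
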