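import Pool.Agent.H867R4.NCount
import Pool.Agent.H541R2.Lower

set_option autoImplicit false

namespace Pool.Agent.H867R4

open Finset
open Pool.Agent.H541R2 (rd mv gsign mu mu_nonneg mu_lt_one isCyl_univ sign_card num_aux theLang)

variable {k : ℕ} {Q : Type}

/-- The finite set of configurations. -/
noncomputable def cfgs [Fintype Q] (k : ℕ) (n : ℕ) : Finset (NCfg k Q) := by
  classical
  exact ((Finset.univ : Finset Q) ×ˢ Fintype.piFinset (fun _ : Fin k => Finset.range (n + 2))).image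
    (fun x => ⟨x.1, x.2⟩)

theorem cfgs_card [Fintype Q] (k : ℕ) (n : ℕ) :
    (cfgs (Q := Q) k n).card ≤ Fintype.card Q * (n + 2) ^ k := by
  classical
  unfold cfgs
  refine Finset.card_image_le.trans ?_
  simp [Finset.card_product]

theorem mem_cfgs [Fintype Q] {n : ℕ} {c : NCfg k Q} (h2 : ∀ i, c.p i ≤ n + 1) :
    c ∈ cfgs (Q := Q) k n := by
  classical
  unfold cfgs
  rw [Finset.mem_image]
  refine ⟨(c.q, c.p), ?_, rfl⟩
  simp only [Finset.mem_product, Finset.mem_univ, Fintype.mem_piFinset, Finset.mem_range, true_and]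
  exact fun i => by have := h2 i; omega

theorem log_kappa_le (k : ℕ) {q g n : ℝ} (hq : 1 ≤ q) (hg : 1 ≤ g) (hn : 2 ≤ n) :
    Real.log (g * (q * (n + 2) ^ k)) ≤
      (Real.log g / Real.log 2 + Real.log q / Real.log 2 + 2 * k) * Real.log n := by
  have hlog2 : 0 < Real.log 2 := Real.log_pos (by norm_num)
  have hlogQ : 0 ≤ Real.log q := Real.log_nonneg hq
  have hlogG : 0 ≤ Real.log g := Real.log_nonneg hg
  have hlogn : Real.log 2 ≤ Real.log n := Real.log_le_log (by norm_num) hn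
  have e : Real.log (g * (q * (n + 2) ^ k)) = Real.log g + (Real.log q + k * Real.log (n + 2)) := by
    rw [Real.log_mul (by positivity) (by positivity), Real.log_mul (by positivity) (by positivity),
      Real.log_pow]
  have h1 : Real.log (n + 2) ≤ 2 * Real.log n := by
    have : 2 * Real.log n = Real.log (n ^ 2) := by rw [Real.log_pow]; norm_num
    rw [this]
    apply Real.log_le_log (by positivity)
    nlinarith
  have h2 : Real.log q ≤ Real.log q / Real.log 2 * Real.log n := by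
    rw [div_mul_eq_mul_div, le_div_iff₀ hlog2]
    exact mul_le_mul_of_nonneg_left hlogn hlogQ
  have h2' : Real.log g ≤ Real.log g / Real.log 2 * Real.log n := by
    rw [div_mul_eq_mul_div, le_div_iff₀ hlog2]
    exact mul_le_mul_of_nonneg_left hlogn hlogG
  have h3 : (k : ℝ) * Real.log (n + 2) ≤ k * (2 * Real.log n) :=
    mul_le_mul_of_nonneg_left h1 (by positivity)
  rw [e]
  linarith

/-- The lower bound for the number of pieces. -/
theorem lower_bound (k : ℕ) (Q : Type) [Fintype Q] :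
    ∃ c : ℝ, 0 < c ∧ ∀ n₀ : ℕ, ∃ n : ℕ, n₀ ≤ n ∧ ∀ (M : NMach (Fin 4) k Q),
      (∀ w : List (Fin 4), w.length = n → (w ∈ theLang ↔ M.Accepts w)) →
      ∃ w : List (Fin 4), w.length = n ∧ w ∈ theLang ∧ ∀ (T I : ℕ) (ρ : ℕ → NCfg k Q),
        M.AccRun w T ρ → Pieces n T I ρ → c * (n : ℝ) ≤ I * Real.log n := by
  classical
  by_cases hQ : Nonempty Q
  swap
  · refine ⟨1, one_pos, fun n₀ => ⟨n₀, le_rfl, fun M => ?_⟩⟩
    exact absurd ⟨M.q₀⟩ hQ
  obtain ⟨C⟩ := exists_code Q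
  obtain ⟨V, hV⟩ : ∃ V, V = C.x₁.length + 1 := ⟨_, rfl⟩
  have hV1 : 1 ≤ V := by omega
  obtain ⟨g, hg⟩ : ∃ g, g = 3 * k := ⟨_, rfl⟩
  obtain ⟨μ', hμ'⟩ : ∃ μ' : ℝ, μ' = max (mu g) (1 / 2) := ⟨_, rfl⟩
  have hμ'1 : μ' < 1 := by rw [hμ']; exact max_lt (mu_lt_one g) (by norm_num)
  have hμ'0 : 0 < μ' := by rw [hμ']; exact lt_of_lt_of_le (by norm_num) (le_max_right _ _)
  obtain ⟨lam, hlam⟩ : ∃ lam : ℝ, lam = -Real.log μ' := ⟨_, rfl⟩
  have hlam0 : 0 < lam := by
    have := Real.log_neg hμ'0 hμ'1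
    linarith
  obtain ⟨C4, hC4⟩ : ∃ C4 : ℝ, C4 = (g + 2) * (V + 1) := ⟨_, rfl⟩
  have hC40 : 0 < C4 := by rw [hC4]; positivity
  have hlog2 : 0 < Real.log 2 := Real.log_pos (by norm_num)
  have hcardQ : (1 : ℝ) ≤ Fintype.card Q := by
    exact_mod_cast Fintype.card_pos
  have hlogQ : 0 ≤ Real.log (Fintype.card Q) := Real.log_nonneg hcardQ
  have hg1 : (1 : ℝ) ≤ g + 1 := by
    have : (0 : ℝ) ≤ g := by positivity
    linarith
  have hlogg : 0 ≤ Real.log ((g : ℝ) + 1) := Real.log_nonneg hg1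
  obtain ⟨C2, hC2⟩ : ∃ C2 : ℝ, C2 = Real.log ((g : ℝ) + 1) / Real.log 2 +
      Real.log (Fintype.card Q) / Real.log 2 + 2 * k + 1 := ⟨_, rfl⟩
  have hC20 : 0 < C2 := by rw [hC2]; positivity
  obtain ⟨G, hG⟩ : ∃ G : ℕ, G = 2 * (g + 2) := ⟨_, rfl⟩
  have hG1 : 1 ≤ G := by omega
  have hG0 : (0 : ℝ) < G := by exact_mod_cast hG1
  refine ⟨lam / (2 * C4 * C2 * G), by positivity, fun n₀ => ?_⟩
  -- choose `N`
  have hev : ∀ᶠ N : ℕ in Filter.atTop, (Real.sqrt μ') ^ N < 1 / 4 ∧ μ' ^ N < 1 / 2 ∧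
      n₀ ≤ N ∧ 2 ≤ N := by
    have hs : Real.sqrt μ' < 1 := by
      rw [Real.sqrt_lt' one_pos]; simpa using hμ'1
    have t1 := tendsto_pow_atTop_nhds_zero_of_lt_one (Real.sqrt_nonneg μ') hs
    have t2 := tendsto_pow_atTop_nhds_zero_of_lt_one hμ'0.le hμ'1
    filter_upwards [t1.eventually (gt_mem_nhds (show (0:ℝ) < 1/4 by norm_num)),
      t2.eventually (gt_mem_nhds (show (0:ℝ) < 1/2 by norm_num)),
      Filter.eventually_ge_atTop n₀, Filter.eventually_ge_atTop 2] with N a1 a2 a3 a4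
    exact ⟨a1, a2, a3, a4⟩
  obtain ⟨N, hN1, hN2, hN3, hN4⟩ := hev.exists
  obtain ⟨n, hn⟩ : ∃ n, n = (g + 2) * (N * V + 1) - 1 := ⟨_, rfl⟩
  have hn1 : n + 1 = (g + 2) * (N * V + 1) := by
    have : 1 ≤ (g + 2) * (N * V + 1) := Nat.one_le_iff_ne_zero.mpr (by positivity)
    omega
  have hNV : N ≤ N * V := Nat.le_mul_of_pos_right _ (by omega)
  have hnN : N ≤ n := by
    have h1 : N * V + 1 ≤ (g + 2) * (N * V + 1) := Nat.le_mul_of_pos_left _ (by omega)
    omega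
  have hnG : n ≤ G * (N * V) := by
    have h1 : (g + 2) * (N * V + 1) ≤ (g + 2) * (N * V + N * V) :=
      Nat.mul_le_mul_left _ (by omega)
    have h2 : (g + 2) * (N * V + N * V) = G * (N * V) := by rw [hG]; ring
    omega
  refine ⟨n, by omega, ?_⟩
  intro M hM
  subst hg
  have hlenW : ∀ b : Fin (3 * k + 1) → Fin N → Bool, (C.W b).length = n := by
    intro b
    have := C.W_length b
    rw [← hV] at this
    have e : (3 * k + 1 + 1) * (N * V + 1) = (3 * k + 2) * (N * V + 1) := by ring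
    omega
  obtain ⟨K, hK⟩ : ∃ K, K = cfgs (Q := Q) k n := ⟨_, rfl⟩
  have hn2 : (2 : ℝ) ≤ n := by exact_mod_cast (hN4.trans hnN)
  have hlogn : Real.log 2 ≤ Real.log n := Real.log_le_log (by norm_num) hn2
  have hlogn0 : 0 < Real.log n := lt_of_lt_of_le hlog2 hlogn
  have hpk : (1 : ℝ) ≤ ((n : ℝ) + 2) ^ k := one_le_pow₀ (by linarith)
  obtain ⟨κ, hκ⟩ : ∃ κ : ℝ, κ = 2 * ((((3 * k : ℕ) : ℝ) + 1) * ((Fintype.card Q : ℝ) * ((n : ℝ) + 2) ^ k)) :=
    ⟨_, rfl⟩
  have hκ0 : (1 : ℝ) ≤ (((3 * k : ℕ) : ℝ) + 1) * ((Fintype.card Q : ℝ) * ((n : ℝ) + 2) ^ k) := by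
    have h2 : (1 : ℝ) ≤ (Fintype.card Q : ℝ) * ((n : ℝ) + 2) ^ k := by nlinarith
    nlinarith
  have hκK : (((3 * k : ℕ) : ℝ) + 1) * (K.card : ℝ) ≤ κ := by
    have := cfgs_card (Q := Q) k n
    rw [← hK] at this
    have h2 : (K.card : ℝ) ≤ ((Fintype.card Q * (n + 2) ^ k : ℕ) : ℝ) := by exact_mod_cast this
    push_cast at h2
    have h3 : (((3 * k : ℕ) : ℝ) + 1) * (K.card : ℝ) ≤
        (((3 * k : ℕ) : ℝ) + 1) * ((Fintype.card Q : ℝ) * ((n : ℝ) + 2) ^ k) :=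
      mul_le_mul_of_nonneg_left h2 (by linarith)
    rw [hκ]
    linarith
  have hκ2 : 2 ≤ κ := by rw [hκ]; linarith
  have hlogκ : 0 < Real.log κ := Real.log_pos (by linarith)
  have hlogκle : Real.log κ ≤ C2 * Real.log n := by
    rw [hκ, hC2, Real.log_mul (by norm_num) (by positivity)]
    have := log_kappa_le k hcardQ hg1 hn2
    have h3 : (Real.log (((3 * k : ℕ) : ℝ) + 1) / Real.log 2 +
      Real.log (Fintype.card Q) / Real.log 2 + 2 * k + 1) * Real.log n =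
      (Real.log (((3 * k : ℕ) : ℝ) + 1) / Real.log 2 +
      Real.log (Fintype.card Q) / Real.log 2 + 2 * k) * Real.log n + Real.log n := by ring
    rw [h3]
    linarith
  -- number of phases
  obtain ⟨R, hR1, hR2⟩ : ∃ R : ℕ, (R : ℝ) * Real.log κ ≤ N * lam / 2 ∧
      (N * lam / 2 : ℝ) ≤ (R + 1) * Real.log κ := by
    refine ⟨⌊(N * lam / 2) / Real.log κ⌋₊, ?_, ?_⟩
    · have := Nat.floor_le (a := (N * lam / 2) / Real.log κ) (by positivity)
      rwa [le_div_iff₀ hlogκ] at this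
    · have := (Nat.lt_floor_add_one ((N * lam / 2) / Real.log κ)).le
      rwa [div_le_iff₀ hlogκ] at this
  have hKmem : ∀ (b : Fin (3 * k + 1) → Fin N → Bool) (c : NCfg k Q),
      (∀ i, c.p i ≤ (C.W b).length + 1) → c ∈ K := by
    intro b c hc
    rw [hK]
    apply mem_cfgs
    intro i
    rw [← hlenW b]
    exact hc i
  have hinit : (⟨M.q₀, fun _ => 0⟩ : NCfg k Q) ∈ K := by
    apply hKmem (fun _ _ => true)
    intro i
    exact Nat.zero_le _
  -- a good matrix exists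
  have hgood : ∃ b : Fin (3 * k + 1) → Fin N → Bool, gsign Finset.univ b = -1 ∧
      ¬ AccIn C M K R (⟨M.q₀, fun _ => 0⟩ : NCfg k Q) b := by
    by_contra hcon0
    have hcon : ∀ b : Fin (3 * k + 1) → Fin N → Bool, gsign Finset.univ b = -1 →
        AccIn C M K R (⟨M.q₀, fun _ => 0⟩ : NCfg k Q) b := by
      intro b hb
      by_contra hh
      exact hcon0 ⟨b, hb, hh⟩
    have h5 := accIn_card C M K (-1) (by norm_num) R (⟨M.q₀, fun _ => 0⟩ : NCfg k Q)
      (Set.univ : Set (Fin (3 * k + 1) → Fin N → Bool)) isCyl_univ (by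
        intro b _ hacc
        rw [← W_mem C b, hM _ (hlenW b)]
        obtain ⟨d, hd1, hd2⟩ := run_of_accIn C M K b R _ hacc
        exact accepts_of_reach M _ hd1 hd2)
    have h4 : (2 ^ N : ℝ) ^ (3 * k + 1) * (1 - (mu (3 * k)) ^ N) / 2 ≤
        ((Finset.univ.filter (fun b : Fin (3 * k + 1) → Fin N → Bool =>
          b ∈ (Set.univ : Set (Fin (3 * k + 1) → Fin N → Bool)) ∧
          AccIn C M K R (⟨M.q₀, fun _ => 0⟩ : NCfg k Q) b)).card : ℝ) := by
      refine (sign_card (3 * k) N (-1) (Or.inr rfl)).trans ?_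
      apply Nat.cast_le.mpr
      apply Finset.card_le_card
      intro b hb
      rw [Finset.mem_filter] at hb ⊢
      exact ⟨Finset.mem_univ _, Set.mem_univ _, hcon b hb.2⟩
    have hmu0 := mu_nonneg (3 * k)
    have h6 : (mu (3 * k)) ^ N ≤ μ' ^ N := pow_le_pow_left₀ hmu0 (by rw [hμ']; exact le_max_left _ _) N
    have h7 : ((((3 * k : ℕ) : ℝ) + 1) * (K.card : ℝ)) ^ R ≤ Real.exp (N * lam / 2) := by
      calc ((((3 * k : ℕ) : ℝ) + 1) * (K.card : ℝ)) ^ R ≤ κ ^ R := pow_le_pow_left₀ (by positivity) hκK R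
        _ = Real.exp (R * Real.log κ) := by
          rw [← Real.log_pow, Real.exp_log (by positivity)]
        _ ≤ _ := Real.exp_le_exp.mpr hR1
    have h8 : Real.exp (N * lam / 2) * μ' ^ N = (Real.sqrt μ') ^ N := by
      have e1 : Real.sqrt μ' = Real.exp (-lam / 2) := by
        rw [Real.sqrt_eq_iff_mul_self_eq hμ'0.le (Real.exp_pos _).le, ← Real.exp_add]
        have : -lam / 2 + -lam / 2 = Real.log μ' := by rw [hlam]; ring
        rw [this, Real.exp_log hμ'0]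
      have e2 : μ' = Real.exp (-lam) := by rw [hlam, neg_neg, Real.exp_log hμ'0]
      rw [e1, ← Real.exp_nat_mul]
      nth_rewrite 1 [e2]
      rw [← Real.exp_nat_mul, ← Real.exp_add]
      congr 1
      ring
    obtain ⟨P, hP⟩ : ∃ P : ℝ, P = (2 ^ N : ℝ) ^ (3 * k + 1) := ⟨_, rfl⟩
    have hP0 : 0 < P := by rw [hP]; positivity
    rw [← hP] at h4 h5
    have h9 : ((((3 * k : ℕ) : ℝ) + 1) * (K.card : ℝ)) ^ R * (P * (mu (3 * k)) ^ N) ≤
        P * (Real.sqrt μ') ^ N := by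
      calc ((((3 * k : ℕ) : ℝ) + 1) * (K.card : ℝ)) ^ R * (P * (mu (3 * k)) ^ N)
          ≤ Real.exp (N * lam / 2) * (P * μ' ^ N) := by gcongr
        _ = P * (Real.exp (N * lam / 2) * μ' ^ N) := by ring
        _ = _ := by rw [h8]
    refine absurd (h4.trans ?_) (not_le.mpr (num_aux hP0 (lt_of_le_of_lt h6 hN2) hN1))
    convert h5.trans h9
  obtain ⟨b, hb, hacc⟩ := hgood
  refine ⟨C.W b, hlenW b, (W_mem C b).mpr hb, ?_⟩
  intro T I ρ hρ hI
  have hRI : R + 1 ≤ G * I := by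
    by_contra hlt
    rw [not_le] at hlt
    apply hacc
    have h1 := accIn_of_run C M (by omega) K b (hKmem b) G n (by rw [← hV]; exact hnG) hρ hI hG1
    rw [hρ.1] at h1
    obtain ⟨e, he⟩ := Nat.exists_eq_add_of_le (show G * I ≤ R by omega)
    rw [he]
    clear he
    induction e with
    | zero => exact h1
    | succ e ihe => exact AccIn.mono hinit ihe
  have hnC : (n : ℝ) ≤ C4 * N := by
    have h1 : (n : ℝ) + 1 = ((3 * k : ℕ) + 2) * (N * V + 1) := by exact_mod_cast hn1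
    have h2 : (1 : ℝ) ≤ N := by
      have : 1 ≤ N := by omega
      exact_mod_cast this
    have h3 : (((3 * k : ℕ) : ℝ) + 2) * (N * V + 1) ≤ ((3 * k : ℕ) + 2) * (N * V + N) := by gcongr
    have h4 : (((3 * k : ℕ) : ℝ) + 2) * (N * V + N) = C4 * N := by rw [hC4]; ring
    linarith
  have hRI' : (R : ℝ) + 1 ≤ G * I := by exact_mod_cast hRI
  have hI0 : (0 : ℝ) ≤ I := by positivity
  calc lam / (2 * C4 * C2 * G) * (n : ℝ) ≤ lam / (2 * C4 * C2 * G) * (C4 * N) := by gcongr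
    _ = (N * lam / 2) / (C2 * G) := by field_simp
    _ ≤ ((R + 1) * Real.log κ) / (C2 * G) := by gcongr
    _ ≤ ((G * I) * (C2 * Real.log n)) / (C2 * G) := by gcongr
    _ = I * Real.log n := by field_simp

end Pool.Agent.H867R4
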