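import Pool.Agent.H541R2.Model

set_option autoImplicit false

namespace Pool.Agent.H867R4

open Pool.Agent.H541R2 (rd mv)

/-- A nondeterministic automaton with `k` two-way input heads and finite control `Q`: depending on the
state and the symbols under the heads it may pass to any of the pairs (new state, moves of the heads)
in the set given by `δ`. -/
structure NMach (α : Type) (k : ℕ) (Q : Type) where
  δ : Q → (Fin k → Bool × Option α) → Set (Q × (Fin k → Fin 3))
  q₀ : Q
  F : Set Q

/-- A configuration: state and head positions. -/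
@[ext] structure NCfg (k : ℕ) (Q : Type) where
  q : Q
  p : Fin k → ℕ

variable {α : Type} {k : ℕ} {Q : Type}

/-- `c'` is a successor of `c` on the input `w`. -/
def NMach.Step (M : NMach α k Q) (w : List α) (c c' : NCfg k Q) : Prop :=
  ∃ x ∈ M.δ c.q (fun i => rd w (c.p i)), c'.q = x.1 ∧ ∀ i, c'.p i = mv w.length (x.2 i) (c.p i)

/-- `ρ` is, up to time `T`, an accepting computation on `w`. -/
def NMach.AccRun (M : NMach α k Q) (w : List α) (T : ℕ) (ρ : ℕ → NCfg k Q) : Prop :=
  ρ 0 = ⟨M.q₀, fun _ => 0⟩ ∧ (∀ t < T, M.Step w (ρ t) (ρ (t + 1))) ∧ (ρ T).q ∈ M.F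

/-- The automaton accepts `w`. -/
def NMach.Accepts (M : NMach α k Q) (w : List α) : Prop := ∃ T ρ, M.AccRun w T ρ

/-- The computation `ρ` splits up to time `T` into `I` pieces, each of which has at most `n` steps or is a
piece during which at most one head moves. -/
def Pieces (n T I : ℕ) (ρ : ℕ → NCfg k Q) : Prop :=
  ∃ t : ℕ → ℕ, t 0 = 0 ∧ t I = T ∧ ∀ j < I, t j ≤ t (j + 1) ∧
    (t (j + 1) ≤ t j + n ∨
      ∃ h : Fin k, ∀ s, t j ≤ s → s < t (j + 1) → ∀ i, i ≠ h → (ρ (s + 1)).p i = (ρ s).p i)

end Pool.Agent.H867R4
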