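import Pool.Agent.H867R4.NBeh
import Pool.Agent.H541R2.Fold

set_option autoImplicit false

namespace Pool.Agent.H867R4

open Pool.Agent.H541R2 (fld fold fold_eq_fld fld_append fld_tok sg sg_xor sg_eq_neg_one sg_decide gsign
  theLang mem_theLang_iff upd)

variable {Q : Type}

/-- Two code words with the same behaviour. -/
structure Code (Q : Type) where
  x₀ : List (Fin 4)
  x₁ : List (Fin 4)
  len : x₀.length = x₁.length
  ne : x₀ ≠ x₁
  bits₀ : ∀ a ∈ x₀, a = 0 ∨ a = 1
  bits₁ : ∀ a ∈ x₁, a = 0 ∨ a = 1
  beh : (Beh (x₀ ++ [2]) : Table Q (Fin 4) → _) = Beh (x₁ ++ [2])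

/-- A code exists for every finite set of states. -/
theorem exists_code (Q : Type) [Finite Q] : Nonempty (Code Q) := by
  classical
  obtain ⟨n, hn⟩ : ∃ n : ℕ, Nat.card (Table Q (Fin 4) → Bool → Q → Bool → Q → Prop) < 2 ^ n :=
    ⟨_, Nat.lt_two_pow_self⟩
  haveI : Finite (Table Q (Fin 4)) := by unfold Table; infer_instance
  haveI : Finite (Table Q (Fin 4) → Bool → Q → Bool → Q → Prop) := inferInstance
  haveI := Fintype.ofFinite (Table Q (Fin 4) → Bool → Q → Bool → Q → Prop)
  let w : (Fin n → Bool) → List (Fin 4) := fun x => List.ofFn (fun i => if x i then (1 : Fin 4) else 0)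
  obtain ⟨x, y, hxy, hf⟩ := Fintype.exists_ne_map_eq_of_card_lt
    (fun x : Fin n → Bool => (Beh (w x ++ [2]) : Table Q (Fin 4) → Bool → Q → Bool → Q → Prop))
    (by rw [← Nat.card_eq_fintype_card]; simpa using hn)
  have hlen : ∀ x, (w x).length = n := by intro x; simp [w]
  refine ⟨⟨w x, w y, by rw [hlen, hlen], ?_, ?_, ?_, hf⟩⟩
  · intro h
    apply hxy
    have h1 := List.ofFn_injective h
    funext i
    have h2 := congrFun h1 i
    by_cases hx : x i <;> by_cases hy : y i <;> simp_all
  · intro a ha
    simp only [w, List.mem_ofFn] at ha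
    obtain ⟨i, rfl⟩ := ha
    split_ifs <;> simp
  · intro a ha
    simp only [w, List.mem_ofFn] at ha
    obtain ⟨i, rfl⟩ := ha
    split_ifs <;> simp

/-- The block coding one bit. -/
def Code.v (C : Code Q) (b : Bool) : List (Fin 4) := (if b then C.x₁ else C.x₀) ++ [2]

theorem Code.v_length (C : Code Q) (b : Bool) : (C.v b).length = C.x₁.length + 1 := by
  cases b <;> simp [Code.v, C.len]

theorem Code.beh_v (C : Code Q) (b : Bool) :
    (Beh (C.v b) : Table Q (Fin 4) → _) = Beh (C.v true) := by
  cases b
  · simpa [Code.v] using C.beh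
  · rfl

/-- The zone of a row. -/
def Code.zone (C : Code Q) (b : List Bool) : List (Fin 4) := (b.map C.v).flatten

theorem Code.zone_length (C : Code Q) (b : List Bool) :
    (C.zone b).length = b.length * (C.x₁.length + 1) := by
  induction b with
  | nil => simp [Code.zone]
  | cons x b ih =>
    unfold Code.zone at *
    rw [List.map_cons, List.flatten_cons, List.length_append, ih, C.v_length, List.length_cons]
    ring

/-- The behaviour of a zone depends on its length only. -/
theorem Code.beh_zone (C : Code Q) : ∀ (b b' : List Bool), b.length = b'.length →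
    (Beh (C.zone b) : Table Q (Fin 4) → _) = Beh (C.zone b') := by
  intro b
  induction b with
  | nil =>
    intro b' h
    have : b' = [] := List.length_eq_zero_iff.mp h.symm
    rw [this]
  | cons x b ih =>
    intro b' h
    cases b' with
    | nil => simp at h
    | cons y b' =>
      have hl : b.length = b'.length := by simpa using h
      have e1 : C.zone (x :: b) = C.v x ++ C.zone b := by simp [Code.zone]
      have e2 : C.zone (y :: b') = C.v y ++ C.zone b' := by simp [Code.zone]
      rw [e1, e2]
      by_cases hb : b = []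
      · subst hb
        have hb' : b' = [] := List.length_eq_zero_iff.mp hl.symm
        subst hb'
        have e3 : C.zone [] = [] := rfl
        rw [e3, List.append_nil, List.append_nil, C.beh_v x, C.beh_v y]
      · have h1 : 1 ≤ b.length := by
          cases b with
          | nil => exact absurd rfl hb
          | cons _ _ => simp
        have h2 : 1 ≤ (C.zone b).length := by
          rw [C.zone_length]; nlinarith
        have h3 : 1 ≤ (C.zone b').length := by
          rw [C.zone_length, ← hl]; nlinarith
        exact beh_congr (by rw [C.v_length]; omega) h2 (by rw [C.v_length]; omega) h3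
          ((C.beh_v x).trans (C.beh_v y).symm) (ih b' hl)

/-- The rows coded by `b`. -/
def rowsOf {g N : ℕ} (b : Fin g → Fin N → Bool) : List (List Bool) := List.ofFn (fun i => List.ofFn (b i))

/-- The whole input word. -/
def Code.word (C : Code Q) (N : ℕ) (rows : List (List Bool)) : List (Fin 4) :=
  C.zone (List.replicate N true) ++ rows.flatMap (fun b => 3 :: C.zone b)

def Code.W (C : Code Q) {g N : ℕ} (b : Fin g → Fin N → Bool) : List (Fin 4) := C.word N (rowsOf b)

theorem Code.flatMap_length (C : Code Q) (N : ℕ) (rows : List (List Bool))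
    (h : ∀ b ∈ rows, b.length = N) :
    (rows.flatMap (fun b => 3 :: C.zone b)).length = rows.length * (N * (C.x₁.length + 1) + 1) := by
  induction rows with
  | nil => simp
  | cons b rows ih =>
    rw [List.flatMap_cons, List.length_append, ih (fun b hb => h b (by simp [hb])), List.length_cons,
      List.length_cons, C.zone_length, h b (by simp)]
    ring

theorem mem_rowsOf {g N : ℕ} (b : Fin g → Fin N → Bool) : ∀ x ∈ rowsOf b, x.length = N := by
  intro x hx
  simp only [rowsOf, List.mem_ofFn] at hx
  obtain ⟨i, rfl⟩ := hx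
  simp

theorem Code.W_length (C : Code Q) {g N : ℕ} (b : Fin g → Fin N → Bool) :
    (C.W b).length + 1 = (g + 1) * (N * (C.x₁.length + 1) + 1) := by
  rw [Code.W, Code.word, List.length_append, C.zone_length, C.flatMap_length N _ (mem_rowsOf b)]
  simp only [rowsOf, List.length_ofFn, List.length_replicate]
  ring

/-- The part of the word before row `i`. -/
def Code.U (C : Code Q) {g N : ℕ} (b : Fin g → Fin N → Bool) (i : ℕ) : List (Fin 4) :=
  C.zone (List.replicate N true) ++ ((rowsOf b).take i).flatMap (fun b => 3 :: C.zone b) ++ [3]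

/-- The part of the word after row `i`. -/
def Code.U' (C : Code Q) {g N : ℕ} (b : Fin g → Fin N → Bool) (i : ℕ) : List (Fin 4) :=
  ((rowsOf b).drop (i + 1)).flatMap (fun b => 3 :: C.zone b)

theorem Code.U_length (C : Code Q) {g N : ℕ} (b : Fin g → Fin N → Bool) (i : ℕ) (hi : i ≤ g) :
    (C.U b i).length = (i + 1) * (N * (C.x₁.length + 1) + 1) := by
  rw [Code.U, List.length_append, List.length_append, C.zone_length,
    C.flatMap_length N _ (fun x hx => mem_rowsOf b x (List.mem_of_mem_take hx))]
  simp only [rowsOf, List.length_take, List.length_ofFn, List.length_cons, List.length_nil,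
    List.length_replicate]
  rw [min_eq_left hi]
  ring

theorem Code.W_split (C : Code Q) {g N : ℕ} (b : Fin g → Fin N → Bool) (i : Fin g) :
    C.W b = C.U b i ++ C.zone (List.ofFn (b i)) ++ C.U' b i := by
  have h : rowsOf b = (rowsOf b).take i ++ List.ofFn (b i) :: (rowsOf b).drop (i + 1) := by
    have hlt : i.val < (rowsOf b).length := by simp [rowsOf]
    have e : (rowsOf b)[i.val] = List.ofFn (b i) := by simp [rowsOf]
    rw [← e, ← List.drop_eq_getElem_cons hlt, List.take_append_drop]
  rw [Code.W, Code.word, h, List.flatMap_append, List.flatMap_cons, Code.U, Code.U']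
  simp [List.append_assoc]

theorem Code.U_congr (C : Code Q) {g N : ℕ} (b b' : Fin g → Fin N → Bool) (i : Fin g)
    (h : ∀ j, j ≠ i → b j = b' j) : C.U b i = C.U b' i ∧ C.U' b i = C.U' b' i := by
  have h1 : (rowsOf b).take i = (rowsOf b').take i := by
    apply List.ext_getElem
    · simp [rowsOf]
    · intro m hm1 hm2
      have hmi : m < i.val := by
        have := hm1; simp [rowsOf] at this; omega
      simp only [List.getElem_take, rowsOf, List.getElem_ofFn]
      rw [h]
      intro hh; rw [← hh] at hmi; simp at hmi
  have h2 : (rowsOf b).drop (i + 1) = (rowsOf b').drop (i + 1) := by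
    apply List.ext_getElem
    · simp [rowsOf]
    · intro m hm1 hm2
      simp only [List.getElem_drop, rowsOf, List.getElem_ofFn]
      rw [h]
      intro hh
      have := congrArg Fin.val hh
      simp at this
      omega
  rw [Code.U, Code.U, Code.U', Code.U', h1, h2]
  exact ⟨rfl, rfl⟩

theorem Code.U_ne (C : Code Q) {g N : ℕ} (b : Fin g → Fin N → Bool) (i : ℕ) : C.U b i ≠ [] := by
  intro h
  rw [Code.U] at h
  have := congrArg List.length h
  simp at this

theorem fld_v {g : ℕ} (C : Code Q) (β : Fin g → Bool) (par : Bool) :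
    ∃ p', fld (C.v true) (fun i => C.v (β i)) (true, par) = (true, p') ∧
      sg p' = sg par * (if ∀ i, β i = true then -1 else 1) := by
  have hne : ∀ a ∈ C.x₁, a ≠ 2 := by
    intro a ha; rcases C.bits₁ a ha with h | h <;> rw [h] <;> decide
  have h1 := fld_tok C.x₁ (fun i => if β i then C.x₁ else C.x₀) true par hne (by
    intro i
    by_cases h : β i
    · rw [if_pos h]
    · rw [if_neg h]; exact C.len)
  refine ⟨xor par (true && decide (∀ i, (if β i then C.x₁ else C.x₀) = C.x₁)), h1, ?_⟩
  rw [sg_xor, Bool.true_and, sg_decide]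
  have e : (∀ i, (if β i then C.x₁ else C.x₀) = C.x₁) ↔ ∀ i, β i = true := by
    apply forall_congr'
    intro i
    cases h : β i
    · simp [C.ne]
    · simp
  simp only [e]

theorem fld_zone {g : ℕ} (C : Code Q) : ∀ (N : ℕ) (b : Fin g → Fin N → Bool) (par : Bool),
    ∃ p', fld (C.zone (List.replicate N true)) (fun i => C.zone (List.ofFn (b i))) (true, par) =
      (true, p') ∧ sg p' = sg par * gsign Finset.univ b := by
  intro N
  induction N with
  | zero =>
    intro b par
    exact ⟨par, by simp [Code.zone, fld], by simp [gsign]⟩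
  | succ N ih =>
    intro b par
    obtain ⟨p₁, h1, h2⟩ := fld_v C (fun i => b i 0) par
    obtain ⟨p', h3, h4⟩ := ih (fun i j => b i j.succ) p₁
    refine ⟨p', ?_, ?_⟩
    · have e : ∀ i, C.zone (List.ofFn (b i)) = C.v (b i 0) ++ C.zone (List.ofFn (fun j => b i j.succ)) := by
        intro i
        rw [List.ofFn_succ]
        simp [Code.zone]
      have e' : C.zone (List.replicate (N + 1) true) = C.v true ++ C.zone (List.replicate N true) := by
        simp [Code.zone, List.replicate_succ]
      simp only [e]
      rw [e', fld_append _ _ _ _ (fun i => by rw [C.v_length, C.v_length]), h1, h3]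
    · rw [h4, h2, gsign, gsign, Fin.prod_univ_succ]
      ring

theorem letters_v (C : Code Q) (b : Bool) : ∀ a ∈ C.v b, a ≠ 3 := by
  intro a ha
  unfold Code.v at ha
  rw [List.mem_append] at ha
  rcases ha with ha | ha
  · cases b
    · rcases C.bits₀ a ha with h | h <;> rw [h] <;> decide
    · rcases C.bits₁ a ha with h | h <;> rw [h] <;> decide
  · rw [List.mem_singleton] at ha; rw [ha]; decide

theorem letters_zone (C : Code Q) (b : List Bool) : ∀ a ∈ C.zone b, a ≠ 3 := by
  intro a ha
  simp only [Code.zone, List.mem_flatten, List.mem_map] at ha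
  obtain ⟨l, ⟨x, _, rfl⟩, ha⟩ := ha
  exact letters_v C x a ha

/-- The language computes the generalised inner product on the code words. -/
theorem W_mem (C : Code Q) {g N : ℕ} (b : Fin g → Fin N → Bool) :
    C.W b ∈ theLang ↔ gsign Finset.univ b = -1 := by
  have e : C.W b = C.zone (List.replicate N true) ++
      (List.ofFn (fun i => C.zone (List.ofFn (b i)))).flatMap (fun R => 3 :: R) := by
    rw [Code.W, Code.word, rowsOf]
    congr 1
    have : List.ofFn (fun i => C.zone (List.ofFn (b i))) =
        (List.ofFn (fun i => List.ofFn (b i))).map C.zone := by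
      rw [List.map_ofFn]; rfl
    rw [this, List.flatMap_map]
  rw [e, mem_theLang_iff _ _ (letters_zone C _), fold_eq_fld]
  · simp only [List.drop_zero]
    obtain ⟨p', h1, h2⟩ := fld_zone C N b false
    rw [h1, sg_eq_neg_one, h2]
    have e3 : sg false = 1 := by simp [sg]
    rw [e3, one_mul]
  · intro R hR
    simp only [List.mem_ofFn] at hR
    obtain ⟨i, rfl⟩ := hR
    refine ⟨?_, letters_zone C _⟩
    rw [C.zone_length, C.zone_length]
    simp

end Pool.Agent.H867R4
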